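import Mathlib

/-! The box lemma for down-sets. -/

set_option autoImplicit false
open Finset
open scoped Pointwise

namespace Pool.Agent.Q240.Down

noncomputable def u (n : ℕ) : ℝ := 1 / Real.sqrt ((n : ℝ) + 1)

lemma u_pos (n : ℕ) : 0 < u n := by
  unfold u; positivity

lemma u_sum (m : ℕ) : ∑ n ∈ range m, u n ≤ 2 * Real.sqrt m := by
  induction m with
  | zero => simp
  | succ m ih =>
    rw [Finset.sum_range_succ]
    have h : u m ≤ 2 * Real.sqrt ((m + 1 : ℕ) : ℝ) - 2 * Real.sqrt m := by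
      unfold u
      push_cast
      have h1 : 0 ≤ Real.sqrt (m : ℝ) := Real.sqrt_nonneg _
      have h2 : 0 < Real.sqrt ((m : ℝ) + 1) := Real.sqrt_pos.2 (by positivity)
      have h3 : Real.sqrt (m : ℝ) ^ 2 = m := Real.sq_sqrt (by positivity)
      have h4 : Real.sqrt ((m : ℝ) + 1) ^ 2 = m + 1 := Real.sq_sqrt (by positivity)
      rw [div_le_iff₀ h2]
      nlinarith [sq_nonneg (Real.sqrt ((m : ℝ) + 1) - Real.sqrt m)]
    linarith

lemma u_le {n q : ℕ} (h : n ≤ 2 * q) : u q ≤ Real.sqrt (2 / ((n : ℝ) + 2)) := by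
  unfold u
  have h' : (n : ℝ) ≤ 2 * q := by exact_mod_cast h
  rw [show (1 : ℝ) / Real.sqrt ((q : ℝ) + 1) = Real.sqrt (1 / ((q : ℝ) + 1)) by
    rw [Real.sqrt_div zero_le_one, Real.sqrt_one]]
  apply Real.sqrt_le_sqrt
  rw [div_le_div_iff₀ (by positivity) (by positivity)]
  linarith

lemma u_anti (n : ℕ) : ∑ p ∈ antidiagonal n, u p.1 * u p.2 ≤ 4 := by
  set c := Real.sqrt (2 / ((n : ℝ) + 2)) with hc
  have hc0 : 0 ≤ c := Real.sqrt_nonneg _
  have key : ∀ p ∈ antidiagonal n, u p.1 * u p.2 ≤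
      c * (if 2 * p.1 ≤ n then u p.1 else 0) + c * (if 2 * p.2 ≤ n then u p.2 else 0) := by
    intro p hp
    have hpn : p.1 + p.2 = n := mem_antidiagonal.1 hp
    rcases le_total p.1 p.2 with h | h
    · have h1 : 2 * p.1 ≤ n := by omega
      have h2 : u p.2 ≤ c := u_le (by omega)
      rw [if_pos h1]
      have h3 : 0 ≤ c * (if 2 * p.2 ≤ n then u p.2 else 0) := by
        split_ifs
        · exact mul_nonneg hc0 (u_pos _).le
        · simp
      nlinarith [u_pos p.1, u_pos p.2]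
    · have h1 : 2 * p.2 ≤ n := by omega
      have h2 : u p.1 ≤ c := u_le (by omega)
      rw [if_pos h1]
      have h3 : 0 ≤ c * (if 2 * p.1 ≤ n then u p.1 else 0) := by
        split_ifs
        · exact mul_nonneg hc0 (u_pos _).le
        · simp
      nlinarith [u_pos p.1, u_pos p.2]
  have hA : ∑ k ∈ range (n + 1), (if 2 * k ≤ n then u k else 0) ≤ 2 * Real.sqrt ((n / 2 + 1 : ℕ) : ℝ) := by
    rw [← Finset.sum_filter]
    refine le_trans ?_ (u_sum (n / 2 + 1))
    apply Finset.sum_le_sum_of_subset_of_nonneg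
    · intro k hk
      rw [mem_filter, mem_range] at hk
      rw [mem_range]; omega
    · intro k _ _; exact (u_pos k).le
  have hB : c * Real.sqrt ((n / 2 + 1 : ℕ) : ℝ) ≤ 1 := by
    rw [hc, ← Real.sqrt_mul (by positivity)]
    rw [show (1 : ℝ) = Real.sqrt 1 by simp]
    apply Real.sqrt_le_sqrt
    have h1 : ((n / 2 + 1 : ℕ) : ℝ) ≤ ((n : ℝ) + 2) / 2 := by
      push_cast
      have := @Nat.cast_div_le ℝ _ _ _ n 2
      push_cast at this
      linarith
    have h2 : 2 / ((n : ℝ) + 2) * (((n : ℝ) + 2) / 2) = 1 := by field_simp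
    calc 2 / ((n : ℝ) + 2) * ((n / 2 + 1 : ℕ) : ℝ) ≤ 2 / ((n : ℝ) + 2) * (((n : ℝ) + 2) / 2) :=
          mul_le_mul_of_nonneg_left h1 (by positivity)
      _ = 1 := h2
  calc ∑ p ∈ antidiagonal n, u p.1 * u p.2
      ≤ ∑ p ∈ antidiagonal n, (c * (if 2 * p.1 ≤ n then u p.1 else 0) +
          c * (if 2 * p.2 ≤ n then u p.2 else 0)) := Finset.sum_le_sum key
    _ = c * ∑ k ∈ range (n + 1), (if 2 * k ≤ n then u k else 0) +
        c * ∑ k ∈ range (n + 1), (if 2 * k ≤ n then u k else 0) := by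
        rw [Finset.sum_add_distrib, ← Finset.mul_sum, ← Finset.mul_sum]
        congr 2
        · rw [Finset.Nat.sum_antidiagonal_eq_sum_range_succ_mk]
        · have := Finset.Nat.sum_antidiagonal_swap (n := n)
            (f := fun p : ℕ × ℕ => if 2 * p.1 ≤ n then u p.1 else 0)
          simp only [Prod.fst_swap] at this
          rw [this, Finset.Nat.sum_antidiagonal_eq_sum_range_succ_mk]
    _ ≤ 4 := by nlinarith

variable {ι : Type*} [Fintype ι] [DecidableEq ι]

/-- the number of the points of the box `[0, x]` -/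
def vol (x : ι → ℕ) : ℕ := ∏ i, (x i + 1)

omit [DecidableEq ι] in
lemma vol_pos (x : ι → ℕ) : 0 < vol x := Finset.prod_pos fun _ _ => Nat.succ_pos _

omit [DecidableEq ι] in
lemma prod_u (x : ι → ℕ) : ∏ i, u (x i) = 1 / Real.sqrt (vol x : ℝ) := by
  unfold u vol
  rw [Finset.prod_div_distrib, Finset.prod_const_one]
  congr 1
  push_cast
  rw [Real.sqrt_prod _ (fun i _ => by positivity)]

/-- **The box lemma.** -/
theorem box (D : Finset (ι → ℕ)) (hD : D.Nonempty) :
    ∃ b ∈ D, ((D.card : ℝ)) ^ 2 ≤ 4 ^ Fintype.card ι * (vol b : ℝ) * ((D + D).card : ℝ) := by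
  obtain ⟨b, hb, hmax⟩ := Finset.exists_max_image D vol hD
  refine ⟨b, hb, ?_⟩
  have hV : (0 : ℝ) < vol b := by exact_mod_cast vol_pos b
  have h1 : ∀ z ∈ D + D, (((D ×ˢ D).filter fun p => p.1 + p.2 = z).card : ℝ) ≤
      4 ^ Fintype.card ι * (vol b : ℝ) := by
    intro z _
    have step : ∀ p ∈ (D ×ˢ D).filter (fun p => p.1 + p.2 = z),
        (1 : ℝ) ≤ vol b * ∏ i, (u (p.1 i) * u (p.2 i)) := by
      intro p hp
      rw [mem_filter, mem_product] at hp
      rw [Finset.prod_mul_distrib, prod_u, prod_u]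
      have e1 : (vol p.1 : ℝ) ≤ vol b := by exact_mod_cast hmax _ hp.1.1
      have e2 : (vol p.2 : ℝ) ≤ vol b := by exact_mod_cast hmax _ hp.1.2
      have p1 : (0 : ℝ) < vol p.1 := by exact_mod_cast vol_pos p.1
      have p2 : (0 : ℝ) < vol p.2 := by exact_mod_cast vol_pos p.2
      have s1 := Real.sqrt_pos.2 p1
      have s2 := Real.sqrt_pos.2 p2
      rw [div_mul_div_comm, one_mul, mul_one_div, le_div_iff₀ (by positivity), one_mul,
        ← Real.sqrt_mul p1.le]
      rw [Real.sqrt_le_left hV.le, sq]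
      exact mul_le_mul e1 e2 p2.le hV.le
    have hcard : (((D ×ˢ D).filter fun p => p.1 + p.2 = z).card : ℝ) ≤
        ∑ p ∈ (D ×ˢ D).filter (fun p => p.1 + p.2 = z), (vol b : ℝ) * ∏ i, (u (p.1 i) * u (p.2 i)) := by
      rw [Finset.card_eq_sum_ones]
      push_cast
      exact Finset.sum_le_sum step
    refine hcard.trans ?_
    rw [← Finset.mul_sum]
    have hinj : ∑ p ∈ (D ×ˢ D).filter (fun p => p.1 + p.2 = z), ∏ i, (u (p.1 i) * u (p.2 i)) ≤
        ∑ w ∈ Fintype.piFinset (fun i => antidiagonal (z i)), ∏ i, (u (w i).1 * u (w i).2) := by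
      rw [← Finset.sum_image (s := (D ×ˢ D).filter (fun p => p.1 + p.2 = z))
        (g := fun p : (ι → ℕ) × (ι → ℕ) => fun i => (p.1 i, p.2 i))
        (f := fun w : ι → ℕ × ℕ => ∏ i, (u (w i).1 * u (w i).2))]
      · apply Finset.sum_le_sum_of_subset_of_nonneg
        · intro w hw
          rw [mem_image] at hw
          obtain ⟨p, hp, rfl⟩ := hw
          rw [Fintype.mem_piFinset]
          intro i
          rw [Finset.HasAntidiagonal.mem_antidiagonal]
          rw [mem_filter] at hp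
          exact congrFun hp.2 i
        · intro w _ _
          exact Finset.prod_nonneg fun i _ => (mul_pos (u_pos _) (u_pos _)).le
      · intro p _ q _ h
        ext i
        · exact congrArg Prod.fst (congrFun h i)
        · exact congrArg Prod.snd (congrFun h i)
    have hprod : ∑ w ∈ Fintype.piFinset (fun i => antidiagonal (z i)), ∏ i, (u (w i).1 * u (w i).2)
        ≤ 4 ^ Fintype.card ι := by
      rw [← Finset.prod_univ_sum (t := fun i => antidiagonal (z i)) (f := fun _ (w : ℕ × ℕ) => u w.1 * u w.2)]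
      calc ∏ i, ∑ p ∈ antidiagonal (z i), u p.1 * u p.2 ≤ ∏ _i : ι, (4 : ℝ) :=
            Finset.prod_le_prod (fun i _ => Finset.sum_nonneg fun p _ =>
              (mul_pos (u_pos _) (u_pos _)).le) (fun i _ => u_anti _)
        _ = 4 ^ Fintype.card ι := by rw [Finset.prod_const, Finset.card_univ]
    calc (vol b : ℝ) * ∑ p ∈ (D ×ˢ D).filter (fun p => p.1 + p.2 = z), ∏ i, (u (p.1 i) * u (p.2 i))
        ≤ vol b * 4 ^ Fintype.card ι := mul_le_mul_of_nonneg_left (hinj.trans hprod) hV.le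
      _ = 4 ^ Fintype.card ι * (vol b : ℝ) := mul_comm _ _
  have h2 : (D ×ˢ D).card = ∑ z ∈ D + D, ((D ×ˢ D).filter fun p => p.1 + p.2 = z).card := by
    apply Finset.card_eq_sum_card_fiberwise
    intro p hp
    rw [Finset.mem_coe, mem_product] at hp
    exact Finset.add_mem_add hp.1 hp.2
  have h3 : ((D.card : ℝ)) ^ 2 = ∑ z ∈ D + D, (((D ×ˢ D).filter fun p => p.1 + p.2 = z).card : ℝ) := by
    rw [sq, ← Nat.cast_mul, ← Finset.card_product, h2]
    push_cast
    rfl
  rw [h3]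
  calc ∑ z ∈ D + D, (((D ×ˢ D).filter fun p => p.1 + p.2 = z).card : ℝ)
      ≤ ∑ _z ∈ D + D, (4 ^ Fintype.card ι * (vol b : ℝ)) := Finset.sum_le_sum h1
    _ = 4 ^ Fintype.card ι * (vol b : ℝ) * ((D + D).card : ℝ) := by
        rw [Finset.sum_const, nsmul_eq_mul, mul_comm]

end Pool.Agent.Q240.Down
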