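import Pool.Agent.Q240.Down.Main

/-! Transfer of the covering theorem to Freiman isomorphic images. -/

set_option autoImplicit false
open Finset
open scoped Pointwise

namespace Pool.Agent.Q240.Down

/-- A Freiman homomorphism on a set closed under moving towards `0` is affine. -/
lemma affine_of_freiman {Γ : Type*} [AddCommGroup Γ] {d : ℕ} (D : Finset (Fin d → ℤ))
    (hT : ∀ x ∈ D, ∀ y, Toward y x → y ∈ D) (f : (Fin d → ℤ) → Γ)
    (hf : ∀ a ∈ D, ∀ b ∈ D, ∀ a' ∈ D, ∀ b' ∈ D, a + b = a' + b' → f a + f b = f a' + f b') :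
    ∃ φ : (Fin d → ℤ) →+ Γ, ∀ x ∈ D, f x = f 0 + φ x := by
  classical
  let δ : Fin d → Γ := fun i => if Pi.single i 1 ∈ D then f (Pi.single i 1) - f 0 else
    if -Pi.single i 1 ∈ D then f 0 - f (-Pi.single i 1) else 0
  let φ : (Fin d → ℤ) →+ Γ :=
    { toFun := fun x => ∑ i, x i • δ i
      map_zero' := by simp
      map_add' := by intro x y; simp [add_smul, Finset.sum_add_distrib] }
  have hφs : ∀ i, φ (Pi.single i 1) = δ i := by
    intro i
    change ∑ j, (Pi.single i (1 : ℤ) : Fin d → ℤ) j • δ j = δ i
    rw [Finset.sum_eq_single i]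
    · simp
    · intro j _ hj; simp [Pi.single_eq_of_ne hj]
    · simp
  refine ⟨φ, ?_⟩
  have key : ∀ (n : ℕ) (x : Fin d → ℤ), x ∈ D → ∑ i, (x i).natAbs = n → f x = f 0 + φ x := by
    intro n
    induction n with
    | zero =>
      intro x hx h
      have : x = 0 := by
        funext i
        have := (Finset.sum_eq_zero_iff.1 h) i (mem_univ i)
        simpa using this
      rw [this, map_zero, add_zero]
    | succ n ih =>
      intro x hx h
      obtain ⟨i, hi⟩ : ∃ i, x i ≠ 0 := by
        by_contra hcon
        push Not at hcon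
        simp [hcon] at h
      have h0D : (0 : Fin d → ℤ) ∈ D := hT x hx 0 (fun j => by
        rcases le_total 0 (x j) with h | h
        · left; exact ⟨le_refl _, h⟩
        · right; exact ⟨h, le_refl _⟩)
      rcases lt_or_gt_of_ne hi with hneg | hpos
      · have h1 : -Pi.single i 1 ∈ D := hT x hx _ (fun j => by
          by_cases hj : j = i
          · subst hj; right; simp; omega
          · rw [Pi.neg_apply, Pi.single_eq_of_ne hj, neg_zero]
            rcases le_total 0 (x j) with h | h
            · left; exact ⟨le_refl _, h⟩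
            · right; exact ⟨h, le_refl _⟩)
        have h2 : x + Pi.single i 1 ∈ D := hT x hx _ (fun j => by
          by_cases hj : j = i
          · subst hj; right; simp; omega
          · rw [Pi.add_apply, Pi.single_eq_of_ne hj, add_zero]
            rcases le_total 0 (x j) with h | h
            · left; exact ⟨h, le_refl _⟩
            · right; exact ⟨le_refl _, h⟩)
        have h3 : ∑ j, ((x + Pi.single i 1 : Fin d → ℤ) j).natAbs = n := by
          have e1 := Finset.add_sum_erase univ (fun j => (x j).natAbs) (mem_univ i)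
          have e2 := Finset.add_sum_erase univ
            (fun j => ((x + Pi.single i 1 : Fin d → ℤ) j).natAbs) (mem_univ i)
          have e3 : ∑ j ∈ univ.erase i, ((x + Pi.single i 1 : Fin d → ℤ) j).natAbs =
              ∑ j ∈ univ.erase i, (x j).natAbs := by
            apply Finset.sum_congr rfl
            intro j hj
            rw [Pi.add_apply, Pi.single_eq_of_ne (Finset.ne_of_mem_erase hj), add_zero]
          have e4 : ((x + Pi.single i 1 : Fin d → ℤ) i).natAbs + 1 = (x i).natAbs := by
            simp; omega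
          omega
        have h4 := ih _ h2 h3
        have h5 := hf x hx 0 h0D _ h2 _ h1 (by abel)
        have h6 : φ (Pi.single i 1) = f 0 - f (-Pi.single i 1) := by
          rw [hφs]
          by_cases hp : (Pi.single i 1 : Fin d → ℤ) ∈ D
          · have := hf _ hp _ h1 0 h0D 0 h0D (by abel)
            simp only [δ, hp, if_true]
            rw [sub_eq_sub_iff_add_eq_add]
            exact this
          · simp only [δ, hp, h1, if_true, if_false]
        rw [map_add, h6] at h4
        have : f x = f (x + Pi.single i 1) + f (-Pi.single i 1) - f 0 := by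
          rw [← h5]; abel
        rw [this, h4]; abel
      · have h1 : Pi.single i 1 ∈ D := hT x hx _ (fun j => by
          by_cases hj : j = i
          · subst hj; left; simp; omega
          · rw [Pi.single_eq_of_ne hj]
            rcases le_total 0 (x j) with h | h
            · left; exact ⟨le_refl _, h⟩
            · right; exact ⟨h, le_refl _⟩)
        have h2 : x - Pi.single i 1 ∈ D := hT x hx _ (fun j => by
          by_cases hj : j = i
          · subst hj; left; simp; omega
          · rw [Pi.sub_apply, Pi.single_eq_of_ne hj, sub_zero]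
            rcases le_total 0 (x j) with h | h
            · left; exact ⟨h, le_refl _⟩
            · right; exact ⟨le_refl _, h⟩)
        have h3 : ∑ j, ((x - Pi.single i 1 : Fin d → ℤ) j).natAbs = n := by
          have e1 := Finset.add_sum_erase univ (fun j => (x j).natAbs) (mem_univ i)
          have e2 := Finset.add_sum_erase univ
            (fun j => ((x - Pi.single i 1 : Fin d → ℤ) j).natAbs) (mem_univ i)
          have e3 : ∑ j ∈ univ.erase i, ((x - Pi.single i 1 : Fin d → ℤ) j).natAbs =
              ∑ j ∈ univ.erase i, (x j).natAbs := by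
            apply Finset.sum_congr rfl
            intro j hj
            rw [Pi.sub_apply, Pi.single_eq_of_ne (Finset.ne_of_mem_erase hj), sub_zero]
          have e4 : ((x - Pi.single i 1 : Fin d → ℤ) i).natAbs + 1 = (x i).natAbs := by
            simp; omega
          omega
        have h4 := ih _ h2 h3
        have h5 := hf x hx 0 h0D _ h2 _ h1 (by abel)
        have h6 : φ (Pi.single i 1) = f (Pi.single i 1) - f 0 := by
          rw [hφs]
          simp only [δ, h1, if_true]
        rw [map_sub, h6] at h4
        have : f x = f (x - Pi.single i 1) + f (Pi.single i 1) - f 0 := by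
          rw [← h5]; abel
        rw [this, h4]; abel
  intro x hx
  exact key _ x hx rfl

/-- the box with half-integral vertices -/
lemma mem_box {r : ℕ} (w : Fin r → ℕ) (x : Fin r → ℤ) :
    (fun i => (x i : ℝ)) ∈ Set.Icc (fun i => -((w i : ℝ) + 1 / 2)) (fun i => (w i : ℝ) + 1 / 2) ↔
      ∀ k, |x k| ≤ w k := by
  rw [Set.mem_Icc, Pi.le_def, Pi.le_def]
  constructor
  · rintro ⟨h1, h2⟩ k
    have e1 := h1 k
    have e2 := h2 k
    rw [abs_le]
    constructor
    · by_contra hcon
      push Not at hcon
      have : (x k : ℝ) ≤ -(w k : ℝ) - 1 := by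
        have : x k ≤ -(w k : ℤ) - 1 := by omega
        exact_mod_cast this
      linarith
    · by_contra hcon
      push Not at hcon
      have : (w k : ℝ) + 1 ≤ (x k : ℝ) := by
        have : (w k : ℤ) + 1 ≤ x k := by omega
        exact_mod_cast this
      linarith
  · intro h
    constructor
    · intro k
      have := (abs_le.1 (h k)).1
      have : -(w k : ℝ) ≤ (x k : ℝ) := by exact_mod_cast this
      change -((w k : ℝ) + 1 / 2) ≤ (x k : ℝ)
      linarith
    · intro k
      have := (abs_le.1 (h k)).2
      have : (x k : ℝ) ≤ (w k : ℝ) := by exact_mod_cast this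
      change (x k : ℝ) ≤ (w k : ℝ) + 1 / 2
      linarith

theorem pfr_freiman {Γ : Type*} [AddCommGroup Γ] [DecidableEq Γ] {d : ℕ}
    (D : Finset (Fin d → ℤ)) (hD : D.Nonempty) (hT : ∀ x ∈ D, ∀ y, Toward y x → y ∈ D)
    (A : Finset Γ) (f : (Fin d → ℤ) → Γ)
    (hf : IsAddFreimanIso 2 (D : Set (Fin d → ℤ)) (A : Set Γ) f)
    (K : ℝ) (hK : ((A + A).card : ℝ) ≤ K * A.card) :
    ∃ (r : ℕ) (B : Set (Fin r → ℝ)) (ψ : (Fin r → ℤ) →+ Γ) (T : Finset Γ),
      (r : ℝ) ≤ 480 * Real.log K + 1 ∧
      Convex ℝ B ∧ IsCompact B ∧ (interior B).Nonempty ∧ (∀ x ∈ B, -x ∈ B) ∧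
      {x : Fin r → ℤ | (fun i => (x i : ℝ)) ∈ B}.ncard ≤ A.card ∧
      (T.card : ℝ) ≤ 48 * K ^ 2292 ∧
      ∀ a ∈ A, ∃ t ∈ T, ∃ x : Fin r → ℤ, (fun i => (x i : ℝ)) ∈ B ∧ a = t + ψ x := by
  obtain ⟨hbij, hiff⟩ := isAddFreimanIso_two.1 hf
  obtain ⟨φ, hφ⟩ := affine_of_freiman D hT f
    (fun a ha b hb a' ha' b' hb' h => (hiff a ha b hb a' ha' b' hb').2 h)
  have hAD : A = D.image f := by
    ext x
    rw [mem_image]
    constructor
    · intro hx
      obtain ⟨y, hy, h⟩ := hbij.surjOn hx
      exact ⟨y, hy, h⟩
    · rintro ⟨y, hy, rfl⟩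
      exact hbij.mapsTo hy
  have hcard : A.card = D.card := by
    rw [hAD, card_image_of_injOn hbij.injOn]
  have hDD : (D + D).card ≤ (A + A).card := by
    apply Finset.card_le_card_of_injOn (fun x => f 0 + f 0 + φ x)
    · intro x hx
      rw [Finset.mem_coe, Finset.mem_add] at hx
      obtain ⟨a, ha, b, hb, rfl⟩ := hx
      have : f 0 + f 0 + φ (a + b) = f a + f b := by
        rw [hφ a ha, hφ b hb, map_add]; abel
      simp only
      rw [this]
      exact Finset.add_mem_add (hbij.mapsTo ha) (hbij.mapsTo hb)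
    · intro x hx y hy h
      rw [Finset.mem_coe, Finset.mem_add] at hx hy
      obtain ⟨a, ha, b, hb, rfl⟩ := hx
      obtain ⟨a', ha', b', hb', rfl⟩ := hy
      simp only at h
      apply (hiff a ha b hb a' ha' b' hb').1
      rw [hφ a ha, hφ b hb, hφ a' ha', hφ b' hb']
      rw [map_add, map_add] at h
      calc f 0 + φ a + (f 0 + φ b) = f 0 + f 0 + (φ a + φ b) := by abel
        _ = f 0 + f 0 + (φ a' + φ b') := h
        _ = _ := by abel
  have hK' : ((D + D).card : ℝ) ≤ K * D.card := by
    rw [← hcard]
    refine le_trans ?_ hK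
    exact_mod_cast hDD
  obtain ⟨r, w, ψ, T, hr, hvol, hTc, hcov⟩ := pfr_int K D hD hT hK'
  refine ⟨r, Set.Icc (fun i => -((w i : ℝ) + 1 / 2)) (fun i => (w i : ℝ) + 1 / 2), φ.comp ψ,
    T.image (fun t => f 0 + φ t), hr, convex_Icc _ _, isCompact_Icc, ?_, ?_, ?_, ?_, ?_⟩
  · refine ⟨0, ?_⟩
    rw [mem_interior_iff_mem_nhds]
    apply pi_Icc_mem_nhds
    · intro i
      have : (0 : ℝ) ≤ w i := by positivity
      simp only [Pi.zero_apply]
      linarith
    · intro i
      have : (0 : ℝ) ≤ w i := by positivity
      simp only [Pi.zero_apply]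
      linarith
  · rintro x ⟨h1, h2⟩
    refine ⟨fun i => ?_, fun i => ?_⟩
    · have := h2 i; simp only [Pi.neg_apply] at *; linarith
    · have := h1 i; simp only [Pi.neg_apply] at *; linarith
  · rw [hcard]
    simp only [mem_box]
    exact hvol
  · exact le_trans (by exact_mod_cast card_image_le) hTc
  · intro a ha
    rw [hAD, mem_image] at ha
    obtain ⟨x, hx, rfl⟩ := ha
    obtain ⟨t, ht, z, hz, rfl⟩ := hcov x hx
    refine ⟨f 0 + φ t, mem_image_of_mem _ ht, z, (mem_box w z).2 hz, ?_⟩
    rw [hφ _ hx, map_add]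
    simp only [AddMonoidHom.comp_apply]
    abel

end Pool.Agent.Q240.Down
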