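import Pool.Agent.Q240.Down.Fin

/-! The progression form of the covering theorem for Freiman images of sets closed under moving
towards `0`. -/

set_option autoImplicit false
open Finset
open scoped Pointwise

namespace Pool.Agent.Q240.Down

/-- the number of integer points of the symmetric box -/
lemma ncard_box {r : ℕ} (w : Fin r → ℕ) :
    {x : Fin r → ℤ | ∀ k, |x k| ≤ w k}.ncard = ∏ k, (2 * w k + 1) := by
  have h : {x : Fin r → ℤ | ∀ k, |x k| ≤ w k} =
      ((Fintype.piFinset fun k => Finset.Icc (-(w k : ℤ)) (w k) : Finset (Fin r → ℤ)) :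
        Set (Fin r → ℤ)) := by
    ext x
    simp only [Set.mem_ofPred_eq, Finset.mem_coe, Fintype.mem_piFinset, Finset.mem_Icc, abs_le]
  rw [h, Set.ncard_coe_finset, Fintype.card_piFinset]
  apply Finset.prod_congr rfl
  intro k _
  rw [Int.card_Icc]
  omega

theorem gap_freiman {Γ : Type*} [AddCommGroup Γ] [DecidableEq Γ] {d : ℕ}
    (D : Finset (Fin d → ℤ)) (hD : D.Nonempty) (hT : ∀ x ∈ D, ∀ y, Toward y x → y ∈ D)
    (A : Finset Γ) (f : (Fin d → ℤ) → Γ)
    (hf : IsAddFreimanIso 2 (D : Set (Fin d → ℤ)) (A : Set Γ) f)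
    (K : ℝ) (hK : ((A + A).card : ℝ) ≤ K * A.card) :
    ∃ (r : ℕ) (v : Fin r → Γ) (N : Fin r → ℕ) (T : Finset Γ),
      (r : ℝ) ≤ 480 * Real.log K + 1 ∧ (∀ i, 1 ≤ N i) ∧ ∏ i, N i ≤ A.card ∧
      (T.card : ℝ) ≤ 48 * K ^ 2292 ∧
      ∀ a ∈ A, ∃ t ∈ T, ∃ n : Fin r → ℕ, (∀ i, n i < N i) ∧ a = t + ∑ i, n i • v i := by
  obtain ⟨hbij, hiff⟩ := isAddFreimanIso_two.1 hf
  obtain ⟨φ, hφ⟩ := affine_of_freiman D hT f
    (fun a ha b hb a' ha' b' hb' h => (hiff a ha b hb a' ha' b' hb').2 h)
  have hAD : A = D.image f := by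
    ext x
    rw [mem_image]
    constructor
    · intro hx
      obtain ⟨y, hy, h⟩ := hbij.surjOn hx
      exact ⟨y, hy, h⟩
    · rintro ⟨y, hy, rfl⟩
      exact hbij.mapsTo hy
  have hcard : A.card = D.card := by
    rw [hAD, card_image_of_injOn hbij.injOn]
  have hDD : (D + D).card ≤ (A + A).card := by
    apply Finset.card_le_card_of_injOn (fun x => f 0 + f 0 + φ x)
    · intro x hx
      rw [Finset.mem_coe, Finset.mem_add] at hx
      obtain ⟨a, ha, b, hb, rfl⟩ := hx
      have : f 0 + f 0 + φ (a + b) = f a + f b := by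
        rw [hφ a ha, hφ b hb, map_add]; abel
      simp only
      rw [this]
      exact Finset.add_mem_add (hbij.mapsTo ha) (hbij.mapsTo hb)
    · intro x hx y hy h
      rw [Finset.mem_coe, Finset.mem_add] at hx hy
      obtain ⟨a, ha, b, hb, rfl⟩ := hx
      obtain ⟨a', ha', b', hb', rfl⟩ := hy
      simp only at h
      apply (hiff a ha b hb a' ha' b' hb').1
      rw [hφ a ha, hφ b hb, hφ a' ha', hφ b' hb']
      rw [map_add, map_add] at h
      calc f 0 + φ a + (f 0 + φ b) = f 0 + f 0 + (φ a + φ b) := by abel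
        _ = f 0 + f 0 + (φ a' + φ b') := h
        _ = _ := by abel
  have hK' : ((D + D).card : ℝ) ≤ K * D.card := by
    rw [← hcard]
    refine le_trans ?_ hK
    exact_mod_cast hDD
  obtain ⟨r, w, ψ, T, hr, hvol, hTc, hcov⟩ := pfr_int K D hD hT hK'
  rw [ncard_box] at hvol
  refine ⟨r, fun i => φ (ψ (Pi.single i 1)), fun i => 2 * w i + 1,
    T.image (fun t => f 0 + φ t - φ (ψ fun i => (w i : ℤ))), hr, fun i => Nat.succ_le_succ (Nat.zero_le _), ?_, ?_, ?_⟩
  · rw [hcard]; exact hvol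
  · exact le_trans (by exact_mod_cast card_image_le) hTc
  · intro a ha
    rw [hAD, mem_image] at ha
    obtain ⟨x, hx, rfl⟩ := ha
    obtain ⟨t, ht, z, hz, rfl⟩ := hcov x hx
    refine ⟨_, mem_image_of_mem _ ht, fun i => (z i + w i).toNat, ?_, ?_⟩
    · intro i
      have := abs_le.1 (hz i)
      simp only
      omega
    · have e1 : ∑ i, (z i + w i).toNat • φ (ψ (Pi.single i 1)) =
          φ (ψ (z + fun i => (w i : ℤ))) := by
        have e2 : (z + fun i => (w i : ℤ)) =
            ∑ i, (z i + w i).toNat • (Pi.single i 1 : Fin r → ℤ) := by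
          funext j
          rw [Finset.sum_apply, Finset.sum_eq_single j]
          · have := abs_le.1 (hz j)
            simp only [Pi.add_apply, Pi.smul_apply, Pi.single_eq_same, nsmul_eq_mul, mul_one]
            omega
          · intro i _ hij
            simp only [Pi.smul_apply, nsmul_eq_mul]
            rw [Pi.single_eq_of_ne (Ne.symm hij), mul_zero]
          · simp
        rw [e2, map_sum, map_sum]
        simp only [map_nsmul]
      simp only
      rw [e1, hφ _ hx, map_add, map_add, map_add]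
      abel

/-- One progression containing a polynomial proportion of the set. -/
theorem gap_dense {Γ : Type*} [AddCommGroup Γ] [DecidableEq Γ] {A : Finset Γ} {r : ℕ}
    {v : Fin r → Γ} {N : Fin r → ℕ} {T : Finset Γ} {c : ℝ}
    (hT : (T.card : ℝ) ≤ c) (hA : A.Nonempty)
    (h : ∀ a ∈ A, ∃ t ∈ T, ∃ n : Fin r → ℕ, (∀ i, n i < N i) ∧ a = t + ∑ i, n i • v i) :
    ∃ t : Γ, (A.card : ℝ) ≤ c * ((A : Set Γ) ∩
      {x | ∃ n : Fin r → ℕ, (∀ i, n i < N i) ∧ x = t + ∑ i, n i • v i}).ncard := by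
  classical
  by_contra hcon
  push Not at hcon
  let S : Γ → Finset Γ := fun t => A.filter fun x =>
    ∃ n : Fin r → ℕ, (∀ i, n i < N i) ∧ x = t + ∑ i, n i • v i
  have hS : ∀ t, ((A : Set Γ) ∩
      {x | ∃ n : Fin r → ℕ, (∀ i, n i < N i) ∧ x = t + ∑ i, n i • v i}).ncard = (S t).card := by
    intro t
    rw [← Set.ncard_coe_finset]
    congr 1
    ext x
    simp [S]
  have hsub : A ⊆ T.biUnion S := by
    intro a ha
    obtain ⟨t, ht, hn⟩ := h a ha
    rw [mem_biUnion]
    exact ⟨t, ht, mem_filter.2 ⟨ha, hn⟩⟩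
  have hAc : (0 : ℝ) < A.card := by exact_mod_cast hA.card_pos
  have hTn : T.Nonempty := by
    obtain ⟨a, ha⟩ := hA
    obtain ⟨t, ht, -⟩ := h a ha
    exact ⟨t, ht⟩
  have hTc : (0 : ℝ) < T.card := by exact_mod_cast hTn.card_pos
  have h1 : (A.card : ℝ) ≤ ∑ t ∈ T, ((S t).card : ℝ) := by
    have := (card_le_card hsub).trans card_biUnion_le
    exact_mod_cast this
  have h2 : ∀ t ∈ T, ((S t).card : ℝ) < A.card / T.card := by
    intro t _
    have h3 := hcon t
    rw [hS] at h3
    rw [lt_div_iff₀ hTc]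
    calc ((S t).card : ℝ) * T.card ≤ (S t).card * c :=
          mul_le_mul_of_nonneg_left hT (by positivity)
      _ = c * (S t).card := mul_comm _ _
      _ < A.card := h3
  have h3 := Finset.sum_lt_sum_of_nonempty hTn h2
  rw [Finset.sum_const, nsmul_eq_mul, mul_div_cancel₀ _ hTc.ne'] at h3
  linarith

end Pool.Agent.Q240.Down
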