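import Pool.Agent.Q240.Down.Box
import Pool.Agent.H137R2.Weak.Final

/-! The polynomial Freiman-Ruzsa theorem for sets that are closed under moving towards 0. -/

set_option autoImplicit false
open Finset
open scoped Pointwise

namespace Pool.Agent.Q240.Down

/-- `y` is coordinatewise between `0` and `x` -/
def Toward {ι : Type*} (y x : ι → ℤ) : Prop :=
  ∀ i, (0 ≤ y i ∧ y i ≤ x i) ∨ (x i ≤ y i ∧ y i ≤ 0)

lemma rank_red {d : ℕ} (S : Finset (Fin d → ℤ)) :
    ∃ (r : ℕ) (a : Fin r → Fin d), Function.Injective a ∧ r ≤ S.card ∧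
      ∀ x ∈ AddSubgroup.closure (S : Set (Fin d → ℤ)), (∀ k, x (a k) = 0) → x = 0 := by
  classical
  let v : Fin d → (S → ℚ) := fun i s => ((s : Fin d → ℤ) i : ℚ)
  obtain ⟨κ, a, ha, hspan, hli⟩ := exists_linearIndependent' ℚ v
  haveI : Finite κ := Finite.of_injective a ha
  haveI : Fintype κ := Fintype.ofFinite κ
  have hcard : Fintype.card κ ≤ S.card := by
    have := hli.fintype_card_le_finrank
    simpa using this
  let e := Fintype.equivFin κ
  refine ⟨Fintype.card κ, a ∘ e.symm, ha.comp e.symm.injective, hcard, ?_⟩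
  intro x hx h0
  have hP : ∀ x ∈ AddSubgroup.closure (S : Set (Fin d → ℤ)), ∀ (j : Fin d) (c : κ → ℚ),
      v j = ∑ k, c k • v (a k) → (x j : ℚ) = ∑ k, c k * (x (a k) : ℚ) := by
    intro x hx
    induction hx using AddSubgroup.closure_induction with
    | mem s hs =>
      intro j c hc
      have := congrFun hc ⟨s, hs⟩
      simpa [v, Finset.sum_apply] using this
    | zero => intro j c _; simp
    | add y z _ _ hy hz =>
      intro j c hc
      have e1 := hy j c hc
      have e2 := hz j c hc
      push_cast [Pi.add_apply]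
      rw [e1, e2, ← Finset.sum_add_distrib]
      exact Finset.sum_congr rfl fun k _ => by ring
    | neg y _ hy =>
      intro j c hc
      have e1 := hy j c hc
      push_cast [Pi.neg_apply]
      rw [e1, ← Finset.sum_neg_distrib]
      exact Finset.sum_congr rfl fun k _ => by ring
  funext j
  have hj : v j ∈ Submodule.span ℚ (Set.range (v ∘ a)) := by
    rw [hspan]; exact Submodule.subset_span ⟨j, rfl⟩
  obtain ⟨c, hc⟩ := (Submodule.mem_span_range_iff_exists_fun ℚ).1 hj
  have := hP x hx j c (by rw [← hc]; rfl)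
  have hz : ∀ k, x (a k) = 0 := fun k => by simpa using h0 (e k)
  simp only [hz] at this
  simpa using this

/-- extension by `0` -/
noncomputable def jj {d r : ℕ} (a : Fin r → Fin d) (ha : Function.Injective a) :
    (Fin r → ℤ) →+ (Fin d → ℤ) where
  toFun y := Function.extend a y 0
  map_zero' := by
    funext i
    by_cases h : ∃ k, a k = i
    · obtain ⟨k, rfl⟩ := h; rw [ha.extend_apply]; rfl
    · rw [Function.extend_apply' _ _ _ h]
  map_add' := by
    intro y z
    funext i
    rw [Pi.add_apply]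
    by_cases h : ∃ k, a k = i
    · obtain ⟨k, rfl⟩ := h; rw [ha.extend_apply, ha.extend_apply, ha.extend_apply]; rfl
    · rw [Function.extend_apply' _ _ _ h, Function.extend_apply' _ _ _ h,
        Function.extend_apply' _ _ _ h]; rfl

lemma jj_apply {d r : ℕ} (a : Fin r → Fin d) (ha : Function.Injective a) (y : Fin r → ℤ)
    (k : Fin r) : jj a ha y (a k) = y k := ha.extend_apply _ _ _

lemma jj_apply' {d r : ℕ} (a : Fin r → Fin d) (ha : Function.Injective a) (y : Fin r → ℤ)
    (i : Fin d) (h : ¬ ∃ k, a k = i) : jj a ha y i = 0 := Function.extend_apply' _ _ _ h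

lemma jj_inj {d r : ℕ} (a : Fin r → Fin d) (ha : Function.Injective a) :
    Function.Injective (jj a ha) := by
  intro y z h
  funext k
  rw [← jj_apply a ha y k, ← jj_apply a ha z k, h]

/-- the sign of a truth value -/
def sg (b : Bool) : ℤ := if b then 1 else -1

lemma sg_sq (b : Bool) : sg b * sg b = 1 := by cases b <;> rfl

/-- the orthant of `s` -/
def es {r : ℕ} (s : Fin r → Bool) (n : Fin r → ℕ) : Fin r → ℤ := fun k => sg (s k) * n k

lemma es_add {r : ℕ} (s : Fin r → Bool) (m n : Fin r → ℕ) : es s (m + n) = es s m + es s n := by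
  funext k; simp only [es, Pi.add_apply]; push_cast; ring

lemma es_inj {r : ℕ} (s : Fin r → Bool) : Function.Injective (es s) := by
  intro m n h
  funext k
  have := congrFun h k
  simp only [es] at this
  have h2 := congrArg (fun t => sg (s k) * t) this
  simp only [← mul_assoc, sg_sq, one_mul] at h2
  exact_mod_cast h2

lemma toward_es {r : ℕ} (s : Fin r → Bool) {m n : Fin r → ℕ} (h : ∀ k, m k ≤ n k) (k : Fin r) :
    (0 ≤ es s m k ∧ es s m k ≤ es s n k) ∨ (es s n k ≤ es s m k ∧ es s m k ≤ 0) := by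
  have hk : ((m k : ℕ) : ℤ) ≤ n k := by exact_mod_cast h k
  have h0 : (0 : ℤ) ≤ m k := by positivity
  simp only [es]
  cases s k
  · right; simp only [sg]; constructor <;> simp <;> omega
  · left; simp only [sg]; constructor <;> simp <;> omega

lemma weak_int {d : ℕ} [inst : DecidableEq (Fin d → ℤ)] (K : ℝ) (A : Finset (Fin d → ℤ))
    (hA : A.Nonempty) (hK : ((A + A).card : ℝ) ≤ K * A.card) :
    ∃ (P : AddSubgroup (Fin d → ℤ)) (S T : Finset (Fin d → ℤ)), Finite P ∧
      (S.card : ℝ) ≤ 480 * Real.log K + 1 ∧ (T.card : ℝ) ≤ K ^ 185 ∧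
      ∀ a ∈ A, ∃ t ∈ T, ∃ o : Fin d → ℤ, (∃ m : ℕ, Odd m ∧ m • o = 0) ∧
        a - t - o ∈ P ⊔ AddSubgroup.closure (S : Set (Fin d → ℤ)) := by
  have hd : inst = (fun a b => Classical.propDecidable (a = b)) := Subsingleton.elim _ _
  subst hd
  obtain ⟨P, S, T, hP, -, -, hS, -, hT, hcov⟩ :=
    H137.Weak.weak_marton (Γ := Fin d → ℤ) (K := K) (A := A) hA hK
  exact ⟨P, S, T, hP, hS, hT, hcov⟩

theorem pfr_int {d : ℕ} (K : ℝ) (A : Finset (Fin d → ℤ)) (hA : A.Nonempty)
    (hT : ∀ x ∈ A, ∀ y, Toward y x → y ∈ A) (hK : ((A + A).card : ℝ) ≤ K * A.card) :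
    ∃ (r : ℕ) (w : Fin r → ℕ) (ψ : (Fin r → ℤ) →+ (Fin d → ℤ)) (T : Finset (Fin d → ℤ)),
      (r : ℝ) ≤ 480 * Real.log K + 1 ∧
      {x : Fin r → ℤ | ∀ k, |x k| ≤ w k}.ncard ≤ A.card ∧
      (T.card : ℝ) ≤ 48 * K ^ 2292 ∧
      ∀ a ∈ A, ∃ t ∈ T, ∃ x : Fin r → ℤ, (∀ k, |x k| ≤ w k) ∧ a = t + ψ x := by
  classical
  have hc : (0 : ℝ) < A.card := by exact_mod_cast hA.card_pos
  have hK1 : 1 ≤ K := by
    have h1 : (A.card : ℝ) ≤ (A + A).card := by
      exact_mod_cast Finset.card_le_card_add_right hA
    nlinarith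
  have hK0 : 0 < K := by linarith
  obtain ⟨P, S, T0, hP, hS, hT0, hcov⟩ :=
    weak_int K A hA hK
  -- the group `P` and the elements of odd order vanish
  have htors : ∀ (x : Fin d → ℤ) (m : ℕ), 0 < m → m • x = 0 → x = 0 := by
    intro x m hm h
    funext i
    have := congrFun h i
    simp only [Pi.smul_apply, Pi.zero_apply, nsmul_eq_mul, mul_eq_zero] at this
    rcases this with h | h
    · exfalso; have : m = 0 := by exact_mod_cast h
      omega
    · exact h
  have hP0 : P = ⊥ := by
    rw [eq_bot_iff]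
    intro x hx
    rw [AddSubgroup.mem_bot]
    haveI := hP
    have hfin : IsOfFinAddOrder (⟨x, hx⟩ : P) := isOfFinAddOrder_of_finite _
    rw [isOfFinAddOrder_iff_nsmul_eq_zero] at hfin
    obtain ⟨m, hm, h⟩ := hfin
    exact htors x m hm (by simpa using congrArg Subtype.val h)
  have hcov' : ∀ a ∈ A, ∃ t ∈ T0, a - t ∈ AddSubgroup.closure (S : Set (Fin d → ℤ)) := by
    intro a ha
    obtain ⟨t, ht, o, ⟨m, hm, ho⟩, h⟩ := hcov a ha
    have : o = 0 := htors o m hm.pos ho
    rw [this, sub_zero, hP0, bot_sup_eq] at h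
    exact ⟨t, ht, h⟩
  -- a large part in one coset
  obtain ⟨t, ht, hbig⟩ : ∃ t ∈ T0, (A.card : ℝ) ≤ K ^ 185 *
      ((A.filter fun a => a - t ∈ AddSubgroup.closure (S : Set (Fin d → ℤ))).card : ℝ) := by
    by_contra hcon
    push Not at hcon
    have hsub : A ⊆ T0.biUnion fun t => A.filter fun a =>
        a - t ∈ AddSubgroup.closure (S : Set (Fin d → ℤ)) := by
      intro a ha
      obtain ⟨t, ht, h⟩ := hcov' a ha
      exact mem_biUnion.2 ⟨t, ht, mem_filter.2 ⟨ha, h⟩⟩
    have h1 : A.card ≤ ∑ t ∈ T0, (A.filter fun a =>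
        a - t ∈ AddSubgroup.closure (S : Set (Fin d → ℤ))).card :=
      (card_le_card hsub).trans card_biUnion_le
    have h1' : (A.card : ℝ) ≤ ∑ t ∈ T0, ((A.filter fun a =>
        a - t ∈ AddSubgroup.closure (S : Set (Fin d → ℤ))).card : ℝ) := by exact_mod_cast h1
    have hT0ne : T0.Nonempty := by
      obtain ⟨a, ha⟩ := hA
      obtain ⟨t, ht, _⟩ := hcov' a ha
      exact ⟨t, ht⟩
    have h2 : ∑ t ∈ T0, K ^ 185 * ((A.filter fun a =>
        a - t ∈ AddSubgroup.closure (S : Set (Fin d → ℤ))).card : ℝ) < ∑ t ∈ T0, (A.card : ℝ) :=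
      Finset.sum_lt_sum_of_nonempty hT0ne fun t ht => hcon t ht
    rw [← Finset.mul_sum, Finset.sum_const, nsmul_eq_mul] at h2
    have h3 : (T0.card : ℝ) * A.card ≤ K ^ 185 * A.card := mul_le_mul_of_nonneg_right hT0 hc.le
    have h4 : K ^ 185 * (A.card : ℝ) ≤ K ^ 185 * ∑ t ∈ T0, ((A.filter fun a =>
        a - t ∈ AddSubgroup.closure (S : Set (Fin d → ℤ))).card : ℝ) :=
      mul_le_mul_of_nonneg_left h1' (by positivity)
    linarith
  set A' := A.filter fun a => a - t ∈ AddSubgroup.closure (S : Set (Fin d → ℤ)) with hA'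
  obtain ⟨r, a, ha, hr, hinj⟩ := rank_red S
  -- the parts in the orthants
  let D : (Fin r → Bool) → Finset (Fin r → ℕ) := fun s =>
    A.preimage (fun n => jj a ha (es s n)) ((jj_inj a ha).comp (es_inj s)).injOn
  have hmemD : ∀ s n, n ∈ D s ↔ jj a ha (es s n) ∈ A := by
    intro s n; exact Finset.mem_preimage
  have hcount : A'.card ≤ ∑ s : Fin r → Bool, (D s).card := by
    rw [← Finset.card_sigma]
    apply Finset.card_le_card_of_injOn
      (fun x : Fin d → ℤ => (⟨fun k => decide (0 ≤ x (a k)), fun k => (x (a k)).natAbs⟩ :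
        (_ : Fin r → Bool) × (Fin r → ℕ)))
    · intro x hx
      rw [Finset.mem_coe, Finset.mem_sigma]
      refine ⟨mem_univ _, ?_⟩
      rw [hmemD]
      have hxA : x ∈ A := (mem_filter.1 hx).1
      refine hT x hxA _ ?_
      intro i
      by_cases h : ∃ k, a k = i
      · obtain ⟨k, rfl⟩ := h
        rw [jj_apply]
        simp only [es, sg]
        by_cases h0 : 0 ≤ x (a k)
        · left
          simp only [h0, decide_true, if_true, one_mul]
          rw [Int.natAbs_of_nonneg h0]
          exact ⟨h0, le_refl _⟩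
        · right
          simp only [h0, decide_false]
          push Not at h0
          simp only [Bool.false_eq_true, if_false]
          omega
      · rw [jj_apply' _ _ _ _ h]
        rcases le_total 0 (x i) with h | h
        · left; exact ⟨le_refl _, h⟩
        · right; exact ⟨h, le_refl _⟩
    · intro x hx y hy h
      have hx' : x - t ∈ AddSubgroup.closure (S : Set (Fin d → ℤ)) := (mem_filter.1 hx).2
      have hy' : y - t ∈ AddSubgroup.closure (S : Set (Fin d → ℤ)) := (mem_filter.1 hy).2
      have hxy : x - y ∈ AddSubgroup.closure (S : Set (Fin d → ℤ)) := by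
        have := AddSubgroup.sub_mem _ hx' hy'
        rwa [sub_sub_sub_cancel_right] at this
      have h0 : x - y = 0 := by
        apply hinj _ hxy
        intro k
        simp only [Sigma.mk.injEq] at h
        have e1 := congrFun h.1 k
        have e2 := congrFun (eq_of_heq h.2) k
        simp only [decide_eq_decide] at e1
        rw [Pi.sub_apply]
        omega
      exact sub_eq_zero.1 h0
  obtain ⟨s, hs⟩ : ∃ s, A'.card ≤ 2 ^ r * (D s).card := by
    by_contra hcon
    push Not at hcon
    have h1 : ∑ s : Fin r → Bool, 2 ^ r * (D s).card < ∑ _s : Fin r → Bool, A'.card :=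
      Finset.sum_lt_sum_of_nonempty univ_nonempty fun s _ => hcon s
    rw [← Finset.mul_sum, Finset.sum_const, Finset.card_univ, Fintype.card_fun,
      Fintype.card_bool, Fintype.card_fin, smul_eq_mul] at h1
    have h2 := Nat.mul_le_mul_left (2 ^ r) hcount
    omega
  have hA'pos : 0 < A'.card := by
    rcases Nat.eq_zero_or_pos A'.card with h | h
    · exfalso
      rw [h] at hbig
      simp only [Nat.cast_zero, mul_zero] at hbig
      linarith
    · exact h
  have hDne : (D s).Nonempty := by
    rw [← Finset.card_pos]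
    rcases Nat.eq_zero_or_pos (D s).card with h | h
    · rw [h, mul_zero] at hs; omega
    · exact h
  -- the sumset
  have hDD : (D s + D s).card ≤ (A + A).card := by
    apply Finset.card_le_card_of_injOn (fun n => jj a ha (es s n))
    · intro n hn
      rw [Finset.mem_coe, Finset.mem_add] at hn
      obtain ⟨x, hx, y, hy, rfl⟩ := hn
      simp only
      rw [es_add, map_add]
      exact Finset.add_mem_add ((hmemD s x).1 hx) ((hmemD s y).1 hy)
    · exact ((jj_inj a ha).comp (es_inj s)).injOn
  obtain ⟨b, hb, hbox⟩ := box (D s) hDne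
  rw [Fintype.card_fin] at hbox
  have hbA : jj a ha (es s b) ∈ A := (hmemD s b).1 hb
  -- the box
  let B : Finset (Fin d → ℤ) := (Fintype.piFinset fun k => range (b k + 1)).image
    fun n => jj a ha (es s n)
  have hBcard : B.card = vol b := by
    have hinj' : Function.Injective (fun n => jj a ha (es s n)) := (jj_inj a ha).comp (es_inj s)
    rw [Finset.card_image_of_injective _ hinj', Fintype.card_piFinset]
    simp only [card_range]
    rfl
  have hBA : B ⊆ A := by
    intro x hx
    rw [mem_image] at hx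
    obtain ⟨n, hn, rfl⟩ := hx
    rw [Fintype.mem_piFinset] at hn
    refine hT _ hbA _ ?_
    intro i
    by_cases h : ∃ k, a k = i
    · obtain ⟨k, rfl⟩ := h
      rw [jj_apply, jj_apply]
      exact toward_es s (fun k => by have := mem_range.1 (hn k); omega) k
    · rw [jj_apply' _ _ _ _ h, jj_apply' _ _ _ _ h]
      left; exact ⟨le_refl _, le_refl _⟩
  have hV : (0 : ℝ) < vol b := by exact_mod_cast vol_pos b
  have hBne : B.Nonempty := by rw [← Finset.card_pos, hBcard]; exact vol_pos b
  have hAB : ((A + B).card : ℝ) ≤ (K * A.card / vol b) * B.card := by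
    rw [hBcard, div_mul_cancel₀ _ hV.ne']
    refine le_trans ?_ hK
    exact_mod_cast card_le_card (Finset.add_subset_add_left hBA)
  obtain ⟨F, -, hF, hAF⟩ := Finset.ruzsa_covering_add hBne hAB
  -- the numbers
  have hnum : (F.card : ℝ) ≤ 16 ^ r * K ^ 372 := by
    refine hF.trans ?_
    rw [div_le_iff₀ hV]
    have e1 : (A.card : ℝ) ≤ K ^ 185 * (2 ^ r * (D s).card) := by
      refine hbig.trans (mul_le_mul_of_nonneg_left ?_ (by positivity))
      exact_mod_cast hs
    have e2 : ((D s + D s).card : ℝ) ≤ K * A.card := le_trans (by exact_mod_cast hDD) hK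
    have e3 : (A.card : ℝ) ^ 2 ≤ K ^ 370 * 4 ^ r * ((D s).card : ℝ) ^ 2 := by
      calc (A.card : ℝ) ^ 2 ≤ (K ^ 185 * (2 ^ r * (D s).card)) ^ 2 :=
            pow_le_pow_left₀ hc.le e1 2
        _ = K ^ 370 * 4 ^ r * ((D s).card : ℝ) ^ 2 := by
            rw [mul_pow, mul_pow, ← pow_mul, ← pow_mul, mul_comm r 2, pow_mul 2 2 r]; norm_num
            ring
    have e4 : (A.card : ℝ) ^ 2 ≤ K ^ 370 * 4 ^ r * (4 ^ r * vol b * (K * A.card)) := by
      refine e3.trans (mul_le_mul_of_nonneg_left (hbox.trans ?_) (by positivity))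
      exact mul_le_mul_of_nonneg_left e2 (by positivity)
    have e5 : (A.card : ℝ) * A.card ≤ (16 ^ r * K ^ 371 * vol b) * A.card := by
      calc (A.card : ℝ) * A.card = (A.card : ℝ) ^ 2 := by ring
        _ ≤ _ := e4
        _ = (16 ^ r * K ^ 371 * vol b) * A.card := by
            rw [show (16 : ℝ) = 4 * 4 by norm_num, mul_pow]; ring
    have e6 := le_of_mul_le_mul_right e5 hc
    calc K * (A.card : ℝ) ≤ K * (16 ^ r * K ^ 371 * vol b) := mul_le_mul_of_nonneg_left e6 hK0.le
      _ = 16 ^ r * K ^ 372 * vol b := by ring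
  have hrr : (r : ℝ) ≤ 480 * Real.log K + 1 := le_trans (by exact_mod_cast hr) hS
  -- the translates
  let c : Fin r → ℤ := fun k => 2 * ((b k / 2 : ℕ) : ℤ) + 1
  let G : Finset (Fin d → ℤ) := (Fintype.piFinset fun _ : Fin r => ({-1, 0, 1} : Finset ℤ)).image
    fun τ => jj a ha (fun k => c k * τ k)
  have hGcard : (G.card : ℝ) ≤ 3 ^ r := by
    have : G.card ≤ 3 ^ r := by
      refine card_image_le.trans ?_
      rw [Fintype.card_piFinset]
      simp
    exact_mod_cast this
  refine ⟨r, fun k => b k / 2, jj a ha, F + G, hrr, ?_, ?_, ?_⟩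
  · -- the volume
    have h1 : {x : Fin r → ℤ | ∀ k, |x k| ≤ ((b k / 2 : ℕ) : ℤ)}.ncard ≤
        ((Fintype.piFinset fun k => range (b k + 1) : Finset (Fin r → ℕ)) : Set (Fin r → ℕ)).ncard := by
      apply Set.ncard_le_ncard_of_injOn (fun x => fun k => (x k + ((b k / 2 : ℕ) : ℤ)).toNat)
      · intro x hx
        rw [Set.mem_ofPred_eq] at hx
        rw [Finset.mem_coe, Fintype.mem_piFinset]
        intro k
        rw [mem_range]
        have := abs_le.1 (hx k)
        omega
      · intro x hx y hy h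
        funext k
        have e := congrFun h k
        have e1 := abs_le.1 (hx k)
        have e2 := abs_le.1 (hy k)
        simp only at e
        omega
    refine h1.trans ?_
    rw [Set.ncard_coe_finset, Fintype.card_piFinset]
    simp only [card_range]
    calc ∏ k, (b k + 1) = B.card := hBcard.symm
      _ ≤ A.card := card_le_card hBA
  · have h1 : ((F + G).card : ℝ) ≤ F.card * G.card := by exact_mod_cast Finset.card_add_le
    have h48 : (48 : ℝ) ^ r ≤ 48 * K ^ 1920 := by
      have e1 : (48 : ℝ) ^ r = Real.exp (r * Real.log 48) := by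
        rw [mul_comm, Real.exp_mul, Real.exp_log (by norm_num), Real.rpow_natCast]
      have l48 : Real.log 48 ≤ 4 := by
        rw [Real.log_le_iff_le_exp (by norm_num)]
        have h := Real.exp_one_gt_d9
        have h2 : Real.exp 4 = Real.exp 1 ^ 4 := by
          rw [← Real.exp_nat_mul]
          congr 1
          norm_num
        rw [h2]
        calc (48 : ℝ) ≤ 2.7182818283 ^ 4 := by norm_num
          _ ≤ Real.exp 1 ^ 4 := pow_le_pow_left₀ (by norm_num) h.le 4
      have l0 : 0 ≤ Real.log 48 := Real.log_nonneg (by norm_num)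
      have lK : 0 ≤ Real.log K := Real.log_nonneg hK1
      rw [e1]
      calc Real.exp (r * Real.log 48) ≤ Real.exp (Real.log 48 + (1920 : ℕ) * Real.log K) := by
            apply Real.exp_le_exp.2
            have : (r : ℝ) * Real.log 48 ≤ (480 * Real.log K + 1) * Real.log 48 :=
              mul_le_mul_of_nonneg_right hrr l0
            have h3 : Real.log K * Real.log 48 ≤ Real.log K * 4 := mul_le_mul_of_nonneg_left l48 lK
            push_cast
            nlinarith
        _ = 48 * K ^ 1920 := by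
            rw [Real.exp_add, Real.exp_log (by norm_num), Real.exp_nat_mul, Real.exp_log hK0]
    calc ((F + G).card : ℝ) ≤ F.card * G.card := h1
      _ ≤ (16 ^ r * K ^ 372) * 3 ^ r := mul_le_mul hnum hGcard (by positivity) (by positivity)
      _ = 48 ^ r * K ^ 372 := by
          rw [show (48 : ℝ) = 16 * 3 by norm_num, mul_pow]; ring
      _ ≤ (48 * K ^ 1920) * K ^ 372 := mul_le_mul_of_nonneg_right h48 (by positivity)
      _ = 48 * K ^ 2292 := by ring
  · intro x hx
    obtain ⟨f, hf, g, hg, rfl⟩ := Finset.mem_add.1 (hAF hx)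
    obtain ⟨β, hβ, β', hβ', rfl⟩ := Finset.mem_sub.1 hg
    rw [mem_image] at hβ hβ'
    obtain ⟨m, hm, rfl⟩ := hβ
    obtain ⟨m', hm', rfl⟩ := hβ'
    rw [Fintype.mem_piFinset] at hm hm'
    set y : Fin r → ℤ := fun k => es s m k - es s m' k with hy
    have hyb : ∀ k, |y k| ≤ b k := by
      intro k
      have h1 := mem_range.1 (hm k)
      have h2 := mem_range.1 (hm' k)
      simp only [hy, es, sg]
      rw [abs_le]
      cases s k <;> simp <;> omega
    let τ : Fin r → ℤ := fun k => if ((b k / 2 : ℕ) : ℤ) < y k then 1 else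
      if y k < -((b k / 2 : ℕ) : ℤ) then -1 else 0
    have hq : ∀ k, |y k - c k * τ k| ≤ ((b k / 2 : ℕ) : ℤ) := by
      intro k
      have h1 := abs_le.1 (hyb k)
      simp only [c, τ]
      rw [abs_le]
      split_ifs <;> constructor <;> omega
    refine ⟨f + jj a ha (fun k => c k * τ k), Finset.add_mem_add hf ?_,
      fun k => y k - c k * τ k, hq, ?_⟩
    · rw [mem_image]
      refine ⟨τ, ?_, rfl⟩
      rw [Fintype.mem_piFinset]
      intro k
      simp only [τ]
      split_ifs <;> simp
    · rw [add_assoc, ← map_add, ← map_sub]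
      congr 2
      funext k
      simp only [Pi.sub_apply, Pi.add_apply, hy]
      ring

end Pool.Agent.Q240.Down
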